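import Pool.Agent.Lib.MP_b1a3a4_al.MVS.LG.Iface

/-!
# APPROX (12.9): approximation of the dimension by local quantities
-/

set_option linter.all false

namespace Pool.Agent.Lib.MP_b1a3a4_al.MVS.LG.H16

open Finsupp

/-! ## Basis vectors and operators -/

lemma ext_of_apply {Ω : Type} {ξ η : L2 Ω} (h : ∀ ω, ξ ω = η ω) : ξ = η := by
  ext ω; exact h ω

lemma lm_bv {G : Type} [Group G] (g h : G) : lm g (bv h) = bv (g * h) := tr_bv _ _

lemma co_bv {X G : Type} [DecidableEq X] (x i : X) (h : G) :
    co x (bv (i, h) : L2 (X × G)) = if x = i then bv h else 0 := by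
  apply ext_of_apply
  intro g
  rw [co_apply]
  split_ifs with hx
  · subst hx
    by_cases hg : g = h
    · subst hg; rw [bv_self, bv_self]
    · rw [bv_ne hg, bv_ne]
      intro h2; exact hg (Prod.ext_iff.1 h2).2
  · rw [bv_ne]
    · rfl
    · intro h2; exact hx (Prod.ext_iff.1 h2).1

lemma inner_bv_bv {Ω : Type} [DecidableEq Ω] (ω ω' : Ω) :
    inner ℝ (bv ω) (bv ω' : L2 Ω) = if ω = ω' then 1 else 0 := by
  rw [inner_bv]
  split_ifs with h
  · subst h; exact bv_self _
  · exact bv_ne h

lemma norm_pull_le {Ω Ω' : Type} (e : Ω' → Ω) (he : Function.Injective e) :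
    ‖pull e he‖ ≤ 1 := LinearMap.mkContinuous_norm_le _ zero_le_one _

lemma adjco_apply {X G : Type} [DecidableEq X] (y' : X) (ξ : L2 G) (y : X) (h : G) :
    (ContinuousLinearMap.adjoint (co (X := X) (G := G) y') ξ) (y, h) =
      if y' = y then ξ h else 0 := by
  rw [← inner_bv, ContinuousLinearMap.adjoint_inner_right, co_bv]
  split_ifs with hy
  · exact inner_bv _ _
  · exact inner_zero_left _

lemma co_adjco {X G : Type} [DecidableEq X] (y y' : X) (ξ : L2 G) :
    co y (ContinuousLinearMap.adjoint (co (X := X) (G := G) y') ξ) = if y' = y then ξ else 0 := by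
  apply ext_of_apply
  intro h
  rw [co_apply, adjco_apply]
  split_ifs with hy
  · rfl
  · rfl

lemma adjco_bv {X G : Type} [DecidableEq X] (y : X) (h : G) :
    ContinuousLinearMap.adjoint (co (X := X) (G := G) y) (bv h) = bv (y, h) := by
  apply ext_of_apply
  rintro ⟨y', h'⟩
  rw [adjco_apply]
  split_ifs with hy
  · subst hy
    by_cases hg : h' = h
    · subst hg; rw [bv_self, bv_self]
    · rw [bv_ne hg, bv_ne]
      intro h2; exact hg (Prod.ext_iff.1 h2).2
  · rw [bv_ne]
    intro h2; exact hy (Prod.ext_iff.1 h2).1.symm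

lemma adj_lm {G : Type} [Group G] (g : G) :
    ContinuousLinearMap.adjoint (lm g) = lm g⁻¹ := by
  symm
  rw [ContinuousLinearMap.eq_adjoint_iff]
  intro ξ η
  have h := inner_tr (lmP G g) (lm g⁻¹ ξ) η
  rw [← h]
  congr 1
  have : tr (lmP G g) (lm g⁻¹ ξ) = lm g (lm g⁻¹ ξ) := rfl
  rw [this, ← lm_mul, mul_inv_cancel, lm_one]

/-! ## Derivations of the free group -/

/-- existence of derivations of the free group -/
lemma exists_der {X M : Type} [AddCommGroup M] (θ : FreeGroup X → M →+ M)
    (h1 : ∀ v, θ 1 v = v) (hm : ∀ g h v, θ (g * h) v = θ g (θ h v)) (u : X → M) :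
    ∃ δ : FreeGroup X → M, (∀ g h, δ (g * h) = δ g + θ g (δ h)) ∧
      ∀ i, δ (FreeGroup.of i) = u i := by
  have hinv : ∀ g v, θ g⁻¹ (θ g v) = v := by
    intro g v; rw [← hm, inv_mul_cancel, h1]
  have hinv' : ∀ g v, θ g (θ g⁻¹ v) = v := by
    intro g v; rw [← hm, mul_inv_cancel, h1]
  let A : FreeGroup X →* Equiv.Perm M := FreeGroup.lift (fun i =>
    { toFun := fun v => u i + θ (FreeGroup.of i) v
      invFun := fun v => θ (FreeGroup.of i)⁻¹ (v - u i)
      left_inv := by intro v; simp only [add_sub_cancel_left]; exact hinv _ _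
      right_inv := by intro v; simp only [hinv', add_sub_cancel] })
  have hAof : ∀ i v, A (FreeGroup.of i) v = u i + θ (FreeGroup.of i) v := by
    intro i v
    simp only [A, FreeGroup.lift_apply_of]
    rfl
  have key : ∀ w v, A w v = A w 0 + θ w v := by
    intro w
    induction w using FreeGroup.induction_on with
    | C1 => intro v; rw [map_one, h1]; simp
    | of i => intro v; rw [hAof, hAof, map_zero, add_zero]
    | inv_of i _ =>
      intro v
      have h2 : ∀ v, A (FreeGroup.of i)⁻¹ v = θ (FreeGroup.of i)⁻¹ (v - u i) := by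
        intro v
        rw [map_inv, Equiv.Perm.inv_eq_iff_eq, hAof, hinv', add_sub_cancel]
      rw [h2, h2, ← map_add]
      congr 1
      abel
    | mul x y hx hy =>
      intro v
      rw [map_mul, Equiv.Perm.mul_apply, Equiv.Perm.mul_apply, hy v, hx, hx (A y 0), hm, map_add]
      abel
  refine ⟨fun w => A w 0, ?_, ?_⟩
  · intro g h
    show A (g * h) 0 = _
    rw [map_mul, Equiv.Perm.mul_apply]
    exact key g _
  · intro i
    show A (FreeGroup.of i) 0 = _
    rw [hAof, map_zero, add_zero]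

/-- uniqueness -/
lemma der_unique {X M : Type} [AddCommGroup M] (θ : FreeGroup X → M →+ M)
    (h1 : ∀ v, θ 1 v = v) (hm : ∀ g h v, θ (g * h) v = θ g (θ h v))
    (δ δ' : FreeGroup X → M) (hδ : ∀ g h, δ (g * h) = δ g + θ g (δ h))
    (hδ' : ∀ g h, δ' (g * h) = δ' g + θ g (δ' h))
    (h : ∀ i, δ (FreeGroup.of i) = δ' (FreeGroup.of i)) (w : FreeGroup X) : δ w = δ' w := by
  have one : ∀ (δ : FreeGroup X → M), (∀ g h, δ (g * h) = δ g + θ g (δ h)) → δ 1 = 0 := by
    intro δ hδ
    have := hδ 1 1
    rw [mul_one, h1] at this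
    simpa using this
  have inv : ∀ (δ : FreeGroup X → M), (∀ g h, δ (g * h) = δ g + θ g (δ h)) →
      ∀ g, δ g⁻¹ = - θ g⁻¹ (δ g) := by
    intro δ hδ g
    have := hδ g⁻¹ g
    rw [inv_mul_cancel, one δ hδ] at this
    exact eq_neg_of_add_eq_zero_left this.symm
  induction w using FreeGroup.induction_on with
  | C1 => rw [one δ hδ, one δ' hδ']
  | of i => exact h i
  | inv_of i hi => rw [inv δ hδ, inv δ' hδ', hi]
  | mul x y hx hy => rw [hδ, hδ', hx, hy]

/-! ## Operators given by matrices over the group algebra of the free group -/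

section ops

variable {r : ℕ}

/-- finitely supported vectors -/
abbrev MM (r : ℕ) : Type := (Fin r × FreeGroup (Fin r)) →₀ ℝ

variable {L : Type} [Group L] (φ : FreeGroup (Fin r) →* L)

/-- `T v u = ∑ v(i,g) lm (φ g) (u_i)` -/
noncomputable def TT : MM r →ₗ[ℝ] (L2 (Fin r × L) →L[ℝ] L2 L) :=
  Finsupp.linearCombination ℝ (fun k : Fin r × FreeGroup (Fin r) => (lm (φ k.2)).comp (co k.1))

/-- the vector of `ℓ²(Fin r × L)` given by a finitely supported vector -/
noncomputable def VV : MM r →ₗ[ℝ] L2 (Fin r × L) :=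
  Finsupp.linearCombination ℝ (fun k : Fin r × FreeGroup (Fin r) => bv (k.1, φ k.2))

/-- the vector of `ℓ²(L)` given by a finitely supported function -/
noncomputable def V0 : (FreeGroup (Fin r) →₀ ℝ) →ₗ[ℝ] L2 L :=
  Finsupp.linearCombination ℝ (fun g => bv (φ g))

/-- the matrix `T v` on finitely supported vectors -/
noncomputable def UU (v : MM r) : MM r →ₗ[ℝ] (FreeGroup (Fin r) →₀ ℝ) :=
  Finsupp.linearCombination ℝ (fun k => v.sum (fun k' a =>
    if k'.1 = k.1 then Finsupp.single (k'.2 * k.2) a else 0))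

/-- the adjoint matrix on finitely supported vectors -/
noncomputable def US (v : MM r) : (FreeGroup (Fin r) →₀ ℝ) →ₗ[ℝ] MM r :=
  Finsupp.linearCombination ℝ (fun h => v.sum (fun k' a => Finsupp.single (k'.1, k'.2⁻¹ * h) a))

lemma TT_apply (v : MM r) (u : L2 (Fin r × L)) :
    TT φ v u = v.sum (fun k a => a • lm (φ k.2) (co k.1 u)) := by
  unfold TT
  rw [Finsupp.linearCombination_apply, Finsupp.sum, Finsupp.sum,
    ContinuousLinearMap.sum_apply]
  rfl

lemma TT_single (k : Fin r × FreeGroup (Fin r)) (a : ℝ) (u : L2 (Fin r × L)) :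
    TT φ (Finsupp.single k a) u = a • lm (φ k.2) (co k.1 u) := by
  unfold TT
  rw [Finsupp.linearCombination_single]
  rfl

lemma TT_VV (v c : MM r) : TT φ v (VV φ c) = V0 φ (UU v c) := by
  induction c using Finsupp.induction_linear with
  | zero => rw [map_zero, map_zero, map_zero, map_zero]
  | add x y hx hy => rw [map_add, map_add, hx, hy, map_add, map_add]
  | single k b =>
    unfold VV UU
    rw [Finsupp.linearCombination_single, Finsupp.linearCombination_single, map_smul, map_smul,
      TT_apply, Finsupp.sum, Finsupp.sum, map_sum]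
    congr 1
    refine Finset.sum_congr rfl fun k' _ => ?_
    rw [co_bv]
    split_ifs with hk
    · rw [lm_bv]
      unfold V0
      rw [Finsupp.linearCombination_single, map_mul]
    · rw [map_zero, smul_zero, map_zero]

lemma adj_TT (v : MM r) (ξ : L2 L) : ContinuousLinearMap.adjoint (TT φ v) ξ =
    v.sum (fun k a => a • ContinuousLinearMap.adjoint (co k.1) (lm (φ k.2)⁻¹ ξ)) := by
  unfold TT
  rw [Finsupp.linearCombination_apply, Finsupp.sum, Finsupp.sum, map_sum,
    ContinuousLinearMap.sum_apply]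
  refine Finset.sum_congr rfl fun k' _ => ?_
  rw [map_smulₛₗ, ContinuousLinearMap.adjoint_comp, adj_lm]
  rfl

lemma adj_TT_V0 (v : MM r) (c : FreeGroup (Fin r) →₀ ℝ) :
    ContinuousLinearMap.adjoint (TT φ v) (V0 φ c) = VV φ (US v c) := by
  induction c using Finsupp.induction_linear with
  | zero => rw [map_zero, map_zero, map_zero, map_zero]
  | add x y hx hy => rw [map_add, map_add, hx, hy, map_add, map_add]
  | single h b =>
    unfold V0 US
    rw [Finsupp.linearCombination_single, Finsupp.linearCombination_single, map_smul, map_smul,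
      adj_TT, Finsupp.sum, Finsupp.sum, map_sum]
    congr 1
    refine Finset.sum_congr rfl fun k' _ => ?_
    rw [lm_bv, adjco_bv]
    unfold VV
    rw [Finsupp.linearCombination_single, map_mul, map_inv]

lemma norm_co_le {X G : Type} (x : X) : ‖(co x : L2 (X × G) →L[ℝ] L2 G)‖ ≤ 1 :=
  norm_pull_le _ _

lemma norm_lm_le {G : Type} [Group G] (g : G) : ‖(lm g : L2 G →L[ℝ] L2 G)‖ ≤ 1 :=
  norm_pull_le _ (Equiv.injective _)

lemma norm_TT_le (v : MM r) : ‖TT φ v‖ ≤ v.sum (fun _ a => |a|) := by
  unfold TT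
  rw [Finsupp.linearCombination_apply, Finsupp.sum, Finsupp.sum]
  refine (norm_sum_le _ _).trans (Finset.sum_le_sum fun k _ => ?_)
  rw [norm_smul, Real.norm_eq_abs]
  have h1 : ‖(lm (φ k.2)).comp (co k.1 : L2 (Fin r × L) →L[ℝ] L2 L)‖ ≤ 1 := by
    refine (ContinuousLinearMap.opNorm_comp_le _ _).trans ?_
    calc ‖lm (φ k.2)‖ * ‖(co k.1 : L2 (Fin r × L) →L[ℝ] L2 L)‖ ≤ 1 * 1 :=
          mul_le_mul (norm_lm_le _) (norm_co_le _) (norm_nonneg _) zero_le_one
      _ = 1 := one_mul 1
  calc |v k| * _ ≤ |v k| * 1 := mul_le_mul_of_nonneg_left h1 (abs_nonneg _)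
    _ = |v k| := mul_one _

/-- the norm of a vector given by a finitely supported vector -/
lemma norm_VV (c : MM r) : ‖VV φ c‖ ^ 2 = ∑ k ∈ c.support, ∑ k' ∈ c.support,
    c k * c k' * @ite ℝ (k.1 = k'.1 ∧ φ k.2 = φ k'.2) (Classical.propDecidable _) 1 0 := by
  classical
  have h1 : VV φ c = ∑ k ∈ c.support, c k • bv (k.1, φ k.2) := by
    unfold VV; rw [Finsupp.linearCombination_apply, Finsupp.sum]
  rw [← real_inner_self_eq_norm_sq, h1, sum_inner]
  refine Finset.sum_congr rfl fun k _ => ?_
  rw [inner_sum]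
  refine Finset.sum_congr rfl fun k' _ => ?_
  rw [real_inner_smul_left, real_inner_smul_right, inner_bv_bv, ← mul_assoc]
  congr 1
  by_cases hk : k.1 = k'.1 ∧ φ k.2 = φ k'.2
  · have h3 : ((k.1, φ k.2) : Fin r × L) = (k'.1, φ k'.2) := by rw [hk.1, hk.2]
    rw [if_pos hk, if_pos h3]
  · rw [if_neg hk, if_neg]
    intro h2; exact hk ⟨(Prod.ext_iff.1 h2).1, (Prod.ext_iff.1 h2).2⟩

/-! ### The operator `C` -/

variable {m : ℕ}

/-- `C u = (T_y u)_y` -/
noncomputable def CC (v : Option (Fin m) → MM r) :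
    L2 (Fin r × L) →L[ℝ] L2 (Option (Fin m) × L) :=
  ∑ y, (ContinuousLinearMap.adjoint (co y)).comp (TT φ (v y))

/-- bound of the norm -/
noncomputable def nb (v : Option (Fin m) → MM r) : ℝ := ∑ y, (v y).sum (fun _ a => |a|)

lemma nb_nonneg (v : Option (Fin m) → MM r) : 0 ≤ nb v :=
  Finset.sum_nonneg fun y _ => Finset.sum_nonneg fun _ _ => abs_nonneg _

lemma norm_CC_le (v : Option (Fin m) → MM r) : ‖CC φ v‖ ≤ nb v := by
  unfold CC nb
  refine (norm_sum_le _ _).trans (Finset.sum_le_sum fun y _ => ?_)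
  refine (ContinuousLinearMap.opNorm_comp_le _ _).trans ?_
  calc ‖ContinuousLinearMap.adjoint (co y : L2 (Option (Fin m) × L) →L[ℝ] L2 L)‖ *
        ‖TT φ (v y)‖ ≤ 1 * ‖TT φ (v y)‖ := by
        refine mul_le_mul_of_nonneg_right ?_ (norm_nonneg _)
        rw [LinearIsometryEquiv.norm_map]
        exact norm_co_le _
    _ ≤ _ := by rw [one_mul]; exact norm_TT_le φ _

lemma CC_apply (v : Option (Fin m) → MM r) (u : L2 (Fin r × L)) :
    CC φ v u = ∑ y, ContinuousLinearMap.adjoint (co y) (TT φ (v y) u) := by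
  unfold CC
  rw [ContinuousLinearMap.sum_apply]
  rfl

lemma co_CC (v : Option (Fin m) → MM r) (u : L2 (Fin r × L)) (y : Option (Fin m)) :
    co y (CC φ v u) = TT φ (v y) u := by
  rw [CC_apply, map_sum, Finset.sum_eq_single y]
  · rw [co_adjco, if_pos rfl]
  · intro y' _ h; rw [co_adjco, if_neg h]
  · intro h; exact absurd (Finset.mem_univ y) h

lemma CC_eq_zero (v : Option (Fin m) → MM r) (u : L2 (Fin r × L)) :
    CC φ v u = 0 ↔ ∀ y, TT φ (v y) u = 0 := by
  constructor
  · intro h y
    rw [← co_CC φ v u y, h, map_zero]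
  · intro h
    rw [CC_apply]
    exact Finset.sum_eq_zero fun y _ => by rw [h y, map_zero]

lemma adj_CC (v : Option (Fin m) → MM r) (ξ : L2 (Option (Fin m) × L)) :
    ContinuousLinearMap.adjoint (CC φ v) ξ =
      ∑ y, ContinuousLinearMap.adjoint (TT φ (v y)) (co y ξ) := by
  unfold CC
  rw [map_sum, ContinuousLinearMap.sum_apply]
  refine Finset.sum_congr rfl fun y _ => ?_
  rw [ContinuousLinearMap.adjoint_comp, ContinuousLinearMap.adjoint_adjoint]
  rfl

/-- `C* C` on finitely supported vectors -/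
noncomputable def BB (v : Option (Fin m) → MM r) : MM r →ₗ[ℝ] MM r :=
  ∑ y, (US (v y)).comp (UU (v y))

lemma adj_CC_CC_VV (v : Option (Fin m) → MM r) (c : MM r) :
    ContinuousLinearMap.adjoint (CC φ v) (CC φ v (VV φ c)) = VV φ (BB v c) := by
  rw [adj_CC]
  unfold BB
  rw [LinearMap.sum_apply, map_sum]
  refine Finset.sum_congr rfl fun y _ => ?_
  rw [co_CC, TT_VV, adj_TT_V0]
  rfl

/-- the normalized operator -/
noncomputable def CS (v : Option (Fin m) → MM r) :
    L2 (Fin r × L) →L[ℝ] L2 (Option (Fin m) × L) := (nb v + 1)⁻¹ • CC φ v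

lemma norm_CS_le (v : Option (Fin m) → MM r) : ‖CS φ v‖ ≤ 1 := by
  have h0 := nb_nonneg v
  unfold CS
  rw [norm_smul, Real.norm_eq_abs, abs_of_pos (by positivity), inv_mul_le_iff₀ (by positivity),
    mul_one]
  have := norm_CC_le φ v
  linarith

lemma CS_eq_zero (v : Option (Fin m) → MM r) (u : L2 (Fin r × L)) :
    CS φ v u = 0 ↔ ∀ y, TT φ (v y) u = 0 := by
  have h0 := nb_nonneg v
  rw [← CC_eq_zero]
  unfold CS
  rw [ContinuousLinearMap.smul_apply, smul_eq_zero]
  constructor
  · rintro (h | h)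
    · exact absurd h (by positivity)
    · exact h
  · exact Or.inr

/-- `1 - C* C` on finitely supported vectors -/
noncomputable def NN (v : Option (Fin m) → MM r) : MM r →ₗ[ℝ] MM r :=
  LinearMap.id - ((nb v + 1)⁻¹ * (nb v + 1)⁻¹) • BB v

lemma NN_VV (v : Option (Fin m) → MM r) (c : MM r) :
    (ContinuousLinearMap.id ℝ (L2 (Fin r × L)) -
      (ContinuousLinearMap.adjoint (CS φ v)).comp (CS φ v)) (VV φ c) = VV φ (NN v c) := by
  unfold NN CS
  rw [map_smulₛₗ]
  simp only [ContinuousLinearMap.sub_apply, ContinuousLinearMap.comp_apply,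
    ContinuousLinearMap.smul_apply, LinearMap.sub_apply, LinearMap.smul_apply,
    ContinuousLinearMap.id_apply, LinearMap.id_apply, map_sub, map_smul, adj_CC_CC_VV]
  rw [smul_smul]
  rfl

lemma NN_pow_VV (v : Option (Fin m) → MM r) (t : ℕ) (c : MM r) :
    ((ContinuousLinearMap.id ℝ (L2 (Fin r × L)) -
      (ContinuousLinearMap.adjoint (CS φ v)).comp (CS φ v)) ^ t) (VV φ c) =
      VV φ (((NN v) ^ t) c) := by
  induction t generalizing c with
  | zero => rfl
  | succ t ih =>
    rw [pow_succ, pow_succ, ContinuousLinearMap.mul_apply, NN_VV, ih]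
    rfl

end ops

/-! ## The theorem -/

/-- left multiplication on finitely supported vectors -/
noncomputable def lmM {r : ℕ} (g : FreeGroup (Fin r)) : MM r →+ MM r :=
  Finsupp.mapDomain.addMonoidHom (fun k => (k.1, g * k.2))

lemma lmM_single {r : ℕ} (g : FreeGroup (Fin r)) (k : Fin r × FreeGroup (Fin r)) (a : ℝ) :
    lmM g (Finsupp.single k a) = Finsupp.single (k.1, g * k.2) a := by
  unfold lmM
  simp

lemma lmM_one {r : ℕ} (v : MM r) : lmM 1 v = v := by
  induction v using Finsupp.induction_linear with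
  | zero => rw [map_zero]
  | add x y hx hy => rw [map_add, hx, hy]
  | single k a => rw [lmM_single, one_mul]

lemma lmM_mul {r : ℕ} (g h : FreeGroup (Fin r)) (v : MM r) : lmM (g * h) v = lmM g (lmM h v) := by
  induction v using Finsupp.induction_linear with
  | zero => rw [map_zero, map_zero, map_zero]
  | add x y hx hy => rw [map_add, hx, hy, map_add, map_add]
  | single k a => rw [lmM_single, lmM_single, lmM_single, mul_assoc]

lemma TT_lmM {r : ℕ} {L : Type} [Group L] (φ : FreeGroup (Fin r) →* L) (g : FreeGroup (Fin r))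
    (v : MM r) (u : L2 (Fin r × L)) : TT φ (lmM g v) u = lm (φ g) (TT φ v u) := by
  induction v using Finsupp.induction_linear with
  | zero => rw [map_zero, map_zero]; exact (map_zero _).symm
  | add x y hx hy =>
    rw [map_add, map_add, map_add, ContinuousLinearMap.add_apply, hx, hy,
      ContinuousLinearMap.add_apply, map_add]
  | single k a => rw [lmM_single, TT_single, TT_single, map_smul, map_mul, lm_mul]

/-- APPROX -/
theorem approx (hpow : PowStatement) : ApproxStatement := by
  classical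
  intro r m w
  obtain ⟨fox, hfox, hfox1⟩ := exists_der (X := Fin r) (M := MM r) (fun g => lmM g) lmM_one
    lmM_mul (fun i => Finsupp.single (i, 1) 1)
  -- the matrix
  let v : Option (Fin m) → MM r := fun y => match y with
    | Option.none => ∑ i, (Finsupp.single (i, (FreeGroup.of i)⁻¹) (1 : ℝ) - Finsupp.single (i, 1) 1)
    | Option.some l => fox (w l)
  have hInV : ∀ (L : Type) [Group L] (φ : FreeGroup (Fin r) →* L) (u : L2 (Fin r × L)),
      InV φ w u ↔ CS φ v u = 0 := by
    intro L _ φ u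
    rw [CS_eq_zero]
    have hnone : TT φ (v Option.none) u =
        ∑ i, (lm (φ (FreeGroup.of i))⁻¹ (co i u) - co i u) := by
      show TT φ (∑ i, (Finsupp.single (i, (FreeGroup.of i)⁻¹) (1 : ℝ) -
        Finsupp.single (i, 1) 1)) u = _
      rw [map_sum, ContinuousLinearMap.sum_apply]
      refine Finset.sum_congr rfl fun i _ => ?_
      rw [map_sub, ContinuousLinearMap.sub_apply, TT_single, TT_single, one_smul, one_smul,
        map_inv, map_one, lm_one]
    have hder : DerA φ (fun g => TT φ (fox g) u) := by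
      intro g h
      show TT φ (fox (g * h)) u = _
      rw [hfox, map_add, ContinuousLinearMap.add_apply, TT_lmM]
    have hgen : ∀ i, TT φ (fox (FreeGroup.of i)) u = co i u := by
      intro i
      rw [hfox1, TT_single, one_smul, map_one, lm_one]
    constructor
    · rintro ⟨h1, h2⟩ y
      rcases y with _ | l
      · rw [hnone]; exact h1
      · exact h2 _ hder hgen l
    · intro h
      refine ⟨?_, ?_⟩
      · rw [← hnone]; exact h Option.none
      · intro δ hδ hδ1 l
        have h3 := der_unique (fun g => (lm (φ g) : L2 L →L[ℝ] L2 L).toLinearMap.toAddMonoidHom)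
          (by intro ξ; show lm (φ 1) ξ = ξ; rw [map_one, lm_one])
          (by intro g h ξ; show lm (φ (g * h)) ξ = _; rw [map_mul, lm_mul]; rfl)
          δ (fun g => TT φ (fox g) u) hδ hder
          (by intro i; rw [hδ1]; exact (hgen i).symm) (w l)
        rw [h3]
        exact h (Option.some l)
  refine ⟨fun L _ φ t => ∑ i, ‖VV φ (((NN v) ^ t) (Finsupp.single (i, 1) 1))‖ ^ 2, ?_, ?_⟩
  · intro L _ φ P hP hPV
    have hCP : ∀ ξ, CS φ v (P ξ) = 0 := by
      intro ξ
      rw [← hInV, ← hPV]
      exact hP.idem ξ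
    have hP' : IsPr (ContinuousLinearMap.id ℝ (L2 (Fin r × L)) - P) := by
      constructor
      · intro ξ
        simp only [ContinuousLinearMap.sub_apply, ContinuousLinearMap.id_apply, map_sub,
          hP.idem]
        simp
      · intro ξ η
        simp only [ContinuousLinearMap.sub_apply, ContinuousLinearMap.id_apply, inner_sub_left,
          inner_sub_right, hP.symm]
    have h1 := hpow (L2 (Fin r × L)) (L2 (Option (Fin m) × L)) (CS φ v)
      (ContinuousLinearMap.id ℝ (L2 (Fin r × L)) - P) (norm_CS_le φ v) hP'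
      (by
        intro ξ
        simp only [ContinuousLinearMap.sub_apply, ContinuousLinearMap.id_apply, map_sub, hCP,
          sub_zero])
      (by
        intro ξ h
        have h2 := (hInV L φ _).2 h
        rw [← hPV] at h2
        rw [← h2]
        simp only [ContinuousLinearMap.sub_apply, ContinuousLinearMap.id_apply, map_sub,
          hP.idem]
        simp)
    have hb : ∀ i : Fin r, VV φ (Finsupp.single (i, 1) 1) = bv (i, 1) := by
      intro i
      unfold VV
      rw [Finsupp.linearCombination_single, one_smul, map_one]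
    have h2 : ∀ (i : Fin r), (∀ t : ℕ, ‖P (bv (i, 1))‖ ^ 2 ≤
        ‖VV φ (((NN v) ^ t) (Finsupp.single (i, 1) 1))‖ ^ 2) ∧
        Filter.Tendsto (fun t : ℕ => ‖VV φ (((NN v) ^ t) (Finsupp.single (i, 1) 1))‖ ^ 2)
          Filter.atTop (nhds (‖P (bv (i, 1))‖ ^ 2)) := by
      intro i
      have h3 := h1 (bv (i, 1))
      have h4 : bv (i, 1) - (ContinuousLinearMap.id ℝ (L2 (Fin r × L)) - P) (bv (i, 1)) =
          P (bv (i, 1)) := by
        simp only [ContinuousLinearMap.sub_apply, ContinuousLinearMap.id_apply]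
        abel
      rw [h4] at h3
      have h5 : ∀ t : ℕ, ((ContinuousLinearMap.id ℝ (L2 (Fin r × L)) -
          (ContinuousLinearMap.adjoint (CS φ v)).comp (CS φ v)) ^ t) (bv (i, 1)) =
          VV φ (((NN v) ^ t) (Finsupp.single (i, 1) 1)) := by
        intro t
        rw [← hb i, NN_pow_VV]
      simp only [h5] at h3
      exact h3
    constructor
    · intro t
      exact Finset.sum_le_sum fun i _ => (h2 i).1 t
    · exact tendsto_finset_sum _ fun i _ => (h2 i).2
  · intro L _ φ t
    refine ⟨Finset.univ.biUnion (fun i : Fin r =>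
      (((NN v) ^ t) (Finsupp.single (i, 1) 1)).support.image (fun k => φ k.2)), ?_⟩
    intro F _ f hf
    refine Finset.sum_congr rfl fun i _ => ?_
    rw [norm_VV, norm_VV]
    refine Finset.sum_congr rfl fun k hk => Finset.sum_congr rfl fun k' hk' => ?_
    congr 1
    have hiff : (k.1 = k'.1 ∧ (f.comp φ) k.2 = (f.comp φ) k'.2) ↔
        (k.1 = k'.1 ∧ φ k.2 = φ k'.2) := by
      have hmem : ∀ k ∈ (((NN v) ^ t) (Finsupp.single (i, 1) 1)).support,
          φ k.2 ∈ ((Finset.univ.biUnion (fun i : Fin r =>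
            (((NN v) ^ t) (Finsupp.single (i, 1) 1)).support.image
              (fun k => φ k.2)) : Finset L) : Set L) := by
        intro k hk
        exact Finset.mem_coe.2 (Finset.mem_biUnion.2 ⟨i, Finset.mem_univ i,
          Finset.mem_image.2 ⟨k, hk, rfl⟩⟩)
      constructor
      · rintro ⟨h1, h2⟩
        exact ⟨h1, hf (hmem k hk) (hmem k' hk') h2⟩
      · rintro ⟨h1, h2⟩
        exact ⟨h1, by rw [MonoidHom.comp_apply, MonoidHom.comp_apply, h2]⟩
    by_cases h : k.1 = k'.1 ∧ φ k.2 = φ k'.2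
    · rw [if_pos h, if_pos (hiff.2 h)]
    · rw [if_neg h, if_neg (fun h' => h (hiff.1 h'))]

end Pool.Agent.Lib.MP_b1a3a4_al.MVS.LG.H16
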